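import Pool.Agent.K1H47.RA.Single
import Pool.Agent.K1H47.RC.Glob2

set_option autoImplicit false

/-! The global theorem at the transversal intersections of rational curves. -/

namespace Pool.Agent.K1H47.RA

open MvPolynomial Topology Filter Pool.Agent.H936R2 Pool.Agent.R847.Gap Pool.Agent.K1H69.MZ
open Pool.Agent.K1H47.RC

theorem interior (hVEL : S_VEL) (hPAIR : S_PAIR) (K : Type) [Field K] [NumberField K] (n : ℕ)
    (S : Set (MvPolynomial (Fin (n + 1)) K)) (hS : ∀ q ∈ S, ∃ d : ℕ, q.IsHomogeneous d)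
    (φ : Aut S) : ∃ N : ℕ, 0 < N ∧ ∀ P : Fin (n + 1) → K, P ≠ 0 →
      Module.finrank K (tanSp S P) ≤ 3 →
      (∀ k : ℕ, 0 < k → ∀ w, Img φ k P w → ¬ ∃ c : K, w = c • P) →
      ∀ (J : Type) [Fintype J] (r : J → Fin (n + 1) → Polynomial K) (s : J → K),
      (∀ j, ∀ q ∈ S, aeval (r j) q = 0) →
      (∀ j, ∃ c : K, c ≠ 0 ∧ (fun i => (r j i).eval (s j)) = c • P) →
      (∀ j j', j ≠ j' → ∃ a b c, mnr P (fun i => (r j i).derivative.eval (s j))
        (fun i => (r j' i).derivative.eval (s j')) a b c ≠ 0) →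
      ∀ (ι : Type) [Fintype ι] [Nonempty ι] (p : ι → ℕ) [∀ i, Fact (p i).Prime],
      Fintype.card ι < Fintype.card J → Function.Injective p → (∀ i, ¬ p i ∣ N) →
      ∀ σ : ∀ i, K →+* ℚ_[p i], ∃ V ∈ 𝓝 (fun i j => σ i (P j)), ∀ x ∈ V,
        (∀ i, ∀ q ∈ S, eval (x i) (map (σ i) q) = 0) → x ∈ closure (rat S σ) := by
  classical
  have hSTRICT := Pool.Agent.K1H99.RC.t_STRICT
  have hZERO := Pool.Agent.K1H33.RC.t_ZERO
  have hOPEN := Pool.Agent.K1H65.RC.t_OPEN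
  have hSMOOTH := Pool.Agent.K1H52.RC.t_SMOOTH
  have hSHAD := Pool.Agent.K1H45.RC.t_SHAD
  have hNEWT := Pool.Agent.K1H33.RC.t_NEWT
  have hDENSE := Pool.Agent.K1H99.RC.t_DENSE
  obtain ⟨N, hN, hred⟩ := Pool.Agent.K1H45.MZ.S_Red_holds K n S hS φ
  refine ⟨N, hN, fun P hP0 hsm hper J _ r s hr hrP htr ι _ hne p _ hcard hinj hp σ => ?_⟩
  choose cP hcP0 hcP using hrP
  have hpp : ∀ i, ‖(p i : ℚ_[p i])‖ < 1 := fun i => Padic.norm_p_lt_one
  have hσ : ∀ i, DenseRange (σ i) := fun i => denseRange_padic (σ i)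
  choose F G hF hG hgood using fun i => hred ℚ_[p i] (p i) (hpp i) (σ i) (norm_of_not_dvd (hp i))
  have hproper : ∀ i, ProperSpace ℚ_[p i] := fun i =>
    Pool.Agent.W279.Tri.properSpace_of_denseRange (σ i) (hσ i)
  -- the point
  have hcv : ∀ i j, cv (σ i) (r j) (σ i (s j)) = fun l => σ i (cP j) * σ i (P l) := by
    intro i j
    funext l
    have h1 := congrFun (hcP j) l
    simp only [Pi.smul_apply, smul_eq_mul] at h1
    simp only [cv]
    rw [Polynomial.eval₂_at_apply, h1, map_mul]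
  have hcv0 : ∀ i j, cv (σ i) (r j) (σ i (s j)) ≠ 0 := by
    intro i j h0
    obtain ⟨l, hl⟩ := Function.ne_iff.1 hP0
    have h1 := congrFun h0 l
    rw [hcv] at h1
    exact mul_ne_zero ((map_ne_zero _).2 (hcP0 j)) ((map_ne_zero _).2 hl) h1
  have hPS : ∀ j : J, ∀ q ∈ S, eval P q = 0 := by
    intro j q hq
    obtain ⟨d, hd⟩ := hS q hq
    have h1 : eval (fun i => (r j i).eval (s j)) q = 0 := by
      rw [eval_cv', hr j q hq, Polynomial.eval_zero]
    rw [hcP j] at h1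
    have h2 : eval (cP j • P) q = cP j ^ d * eval P q := by
      have := Pool.Agent.K1H69.MZ.eval_hom hd (cP j) P
      exact this
    rw [h2] at h1
    exact (mul_eq_zero.1 h1).resolve_left (pow_ne_zero _ (hcP0 j))
  have htan : ∀ i j, Module.finrank ℚ_[p i] (tanSp (MvPolynomial.map (σ i) '' S)
      (cv (σ i) (r j) (σ i (s j)))) ≤ 3 := by
    intro i j
    have hSL : ∀ q ∈ MvPolynomial.map (σ i) '' S, ∃ d : ℕ, q.IsHomogeneous d := by
      rintro _ ⟨q, hq, rfl⟩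
      obtain ⟨d, hd⟩ := hS q hq
      exact ⟨d, hd.map (σ i)⟩
    obtain ⟨D, hD, hDs⟩ := hSMOOTH K (Fin (n + 1)) S (fun l => Polynomial.C (P l)) 0 (by
      have e : (fun l => (Polynomial.C (P l)).eval (0 : K)) = P :=
        funext fun l => Polynomial.eval_C
      rw [e]
      exact hsm)
    obtain ⟨x, hx⟩ : ∃ x : ℚ_[p i], (D.map (σ i)).eval x ≠ 0 := by
      by_contra hcon
      push Not at hcon
      exact (Polynomial.map_ne_zero_iff (σ i).injective).2 hD (Polynomial.funext fun x => by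
        rw [hcon x, Polynomial.eval_zero])
    have h1 := hDs ℚ_[p i] (σ i) x (by rwa [Polynomial.eval_map] at hx)
    have e : (fun l => (Polynomial.C (P l)).eval₂ (σ i) x) = fun l => σ i (P l) :=
      funext fun l => Polynomial.eval₂_C _ _
    rw [e] at h1
    rw [hcv]
    have h2 := tanSp_smul hSL (c := σ i (cP j)) ((map_ne_zero _).2 (hcP0 j))
      (z := fun l => σ i (P l))
    have h3 : (fun l => σ i (cP j) * σ i (P l)) = σ i (cP j) • fun l => σ i (P l) := rfl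
    rw [h3, h2]
    exact h1
  have hloc := fun i j => @local_at hSTRICT hZERO hOPEN hSHAD hNEWT K _
    (Fin (n + 1)) _ _ ℚ_[p i] _ _ _ (hproper i) (σ i) S (p i) _ (hpp i) hS φ (F i) (G i)
    (hF i) (hgood i) (r j) (hr j) (σ i (s j)) (hcv0 i j) (htan i j)
  choose c₀ k C C' hc₀ hk hFam hz hl ht hA using hloc
  -- a curve which is transversal to the flow at all places
  obtain ⟨j, hj⟩ : ∃ j, ∀ i, ∃ a b c, mnr (ev (C i j) 0 0) (ev (C' i j) 0 0)
      (evt (C i j) 0 0) a b c ≠ 0 := by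
    by_contra hcon
    push Not at hcon
    choose f hf using hcon
    have hfi : Function.Injective f := by
      intro j j' hjj
      by_contra hne'
      obtain ⟨z₁, hz₁p, hz₁, hz₁P, hw₁⟩ := hz (f j) j
      have hf' := hf j'
      rw [← hjj] at hf'
      obtain ⟨z₂, hz₂p, hz₂, hz₂P, hw₂⟩ := hz (f j) j'
      obtain ⟨l₁, hl₁0, hl₁⟩ := hl (f j) j
      obtain ⟨l₂, hl₂0, hl₂⟩ := hl (f j) j'
      obtain ⟨a₁, b₁, ha₁, ht₁⟩ := ht (f j) j
      obtain ⟨a₂, b₂, ha₂, ht₂⟩ := ht (f j) j'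
      have : ProperSpace ℚ_[p (f j)] := hproper (f j)
      refine single hVEL hPAIR (p (f j)) (hpp (f j)) (hF (f j)) (hgood (f j)) hP0 (hPS j) hper
        (htr j j' hne') (hk (f j) j) (hk (f j) j') (hFam (f j) j) (hFam (f j) j')
        (c₁ := c₀ (f j) j * σ (f j) (cP j)) (c₂ := c₀ (f j) j' * σ (f j) (cP j'))
        (mul_ne_zero (hc₀ (f j) j) ((map_ne_zero _).2 (hcP0 j))) hz₁p hz₁ (fun i => ?_) hw₁ hz₂p
        hz₂ (fun i => ?_) hw₂
        ⟨l₁ * σ (f j) (cP j), mul_ne_zero hl₁0 ((map_ne_zero _).2 (hcP0 j)), fun i => ?_⟩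
        ⟨l₂ * σ (f j) (cP j'), mul_ne_zero hl₂0 ((map_ne_zero _).2 (hcP0 j')), fun i => ?_⟩
        ⟨a₁, b₁ * σ (f j) (cP j), ha₁, fun i => ?_⟩ ⟨a₂, b₂ * σ (f j) (cP j'), ha₂, fun i => ?_⟩
        (hf j) hf'
      · rw [hz₁P i, hcv, mul_assoc]
      · rw [hz₂P i, hcv, mul_assoc]
      · rw [hl₁ i, hcv, mul_assoc]
      · rw [hl₂ i, hcv, mul_assoc]
      · rw [ht₁ i, hcv, Polynomial.eval₂_at_apply, mul_assoc]
      · rw [ht₂ i, hcv, Polynomial.eval₂_at_apply, mul_assoc]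
    exact absurd (Fintype.card_le_of_injective f hfi) (not_le.2 hcard)
  set κ : ℕ := ∏ i, k i j with hκ
  have hκ0 : 0 < κ := Finset.prod_pos fun i _ => hk i j
  have hz := fun i => hA i j (hj i) κ hκ0
  -- scaling
  have hsc : ∀ i, ∀ᶠ x in 𝓝 (fun l => σ i (P l)), (∀ q ∈ S, eval x (map (σ i) q) = 0) →
      Appr (σ i) φ (r j) (k i j) κ (σ i (cP j) • x) := by
    intro i
    have h1 : Tendsto (fun x : Fin (n + 1) → ℚ_[p i] => σ i (cP j) • x)
        (𝓝 (fun l => σ i (P l))) (𝓝 (cv (σ i) (r j) (σ i (s j)))) := by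
      rw [hcv]
      exact (continuous_const_smul (σ i (cP j))).continuousAt
    filter_upwards [h1.eventually (hz i)] with x hx hxS
    refine hx fun q hq => ?_
    obtain ⟨d, hd⟩ := hS q hq
    have h2 := Pool.Agent.K1H69.MZ.eval_hom (hd.map (σ i)) (σ i (cP j)) x
    have h3 : (σ i (cP j) • x) = fun l => σ i (cP j) * x l := rfl
    rw [h3, h2, hxS q hq, mul_zero]
  refine ⟨Set.pi Set.univ fun i => {x | (∀ q ∈ S, eval x (map (σ i) q) = 0) →
      Appr (σ i) φ (r j) (k i j) κ (σ i (cP j) • x)}, ?_, ?_⟩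
  · exact set_pi_mem_nhds Set.finite_univ fun i _ => hsc i
  · intro x hx hxS
    rw [Metric.mem_closure_iff]
    intro ε hε
    have hcn : ∀ i, 0 < ‖σ i (cP j)‖ := fun i => norm_pos_iff.2 ((map_ne_zero _).2 (hcP0 j))
    obtain ⟨ε', hε', hε'i⟩ : ∃ ε' > (0 : ℝ), ∀ i, ε' ≤ ε * ‖σ i (cP j)‖ := by
      obtain ⟨i, hi⟩ := Finite.exists_min fun i => ε * ‖σ i (cP j)‖
      exact ⟨ε * ‖σ i (cP j)‖, mul_pos hε (hcn i), hi⟩
    choose s' t' ht' δ hδ hst using fun i => hx i (Set.mem_univ i) (hxS i) ε' hε'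
    obtain ⟨δ₀, hδ₀, hδ₀i⟩ : ∃ δ₀ > (0 : ℝ), ∀ i, δ₀ ≤ δ i := by
      obtain ⟨i, hi⟩ := Finite.exists_min δ
      exact ⟨δ i, hδ i, hi⟩
    obtain ⟨hnat, hrat⟩ := hDENSE ι p hinj
    obtain ⟨q, hq⟩ := hrat s' δ₀ hδ₀
    -- the complementary factors
    have hκi : ∀ i, ∃ κ' : ℕ, κ = k i j * κ' := fun i =>
      Finset.dvd_prod_of_mem (fun i => k i j) (Finset.mem_univ i)
    choose κ' hκ' using hκi
    have hκ'0 : ∀ i, (κ' i : ℚ_[p i]) ≠ 0 := by
      intro i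
      apply Nat.cast_ne_zero.2
      intro h0
      rw [hκ' i, h0, mul_zero] at hκ0
      exact lt_irrefl _ hκ0
    have hκ'n : ∀ i, 0 < ‖(κ' i : ℚ_[p i])‖ := fun i => norm_pos_iff.2 (hκ'0 i)
    obtain ⟨m, hm⟩ := hnat (fun i => t' i / (κ' i : ℚ_[p i])) (fun i => by
      rw [norm_div, div_le_one (hκ'n i)]
      refine (ht' i).trans ?_
      rw [hκ' i, Nat.cast_mul, norm_mul]
      exact mul_le_of_le_one_left (norm_nonneg _) (IsUltrametricDist.norm_natCast_le_one _ _))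
      δ₀ hδ₀
    have hqK : ∀ i, ‖σ i (q : K) - s' i‖ < δ i := fun i => by
      rw [map_ratCast]; exact (hq i).trans_le (hδ₀i i)
    have hmi : ∀ i, ‖((κ' i * m : ℕ) : ℚ_[p i]) - t' i‖ < δ i := by
      intro i
      have e : ((κ' i * m : ℕ) : ℚ_[p i]) - t' i =
          (κ' i : ℚ_[p i]) * ((m : ℚ_[p i]) - t' i / (κ' i : ℚ_[p i])) := by
        push_cast
        have := hκ'0 i
        field_simp
      rw [e, norm_mul]
      calc _ ≤ 1 * ‖(m : ℚ_[p i]) - t' i / (κ' i : ℚ_[p i])‖ :=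
            mul_le_mul_of_nonneg_right (IsUltrametricDist.norm_natCast_le_one _ _) (norm_nonneg _)
        _ < δ i := by rw [one_mul]; exact (hm i).trans_le (hδ₀i i)
    have hit : ∀ i, k i j * (κ' i * m) = κ * m := fun i => by rw [← mul_assoc, ← hκ' i]
    -- the image exists over `K`
    obtain ⟨i₂⟩ := hne
    obtain ⟨h1, ⟨w, hw⟩, -⟩ := hst i₂ (q : K) (hqK i₂) (κ' i₂ * m) (hmi i₂)
    rw [hit] at hw
    have hcw : ∀ i, ∃ c : ℚ_[p i], c ≠ 0 ∧ ∀ l, ‖c * σ i (w l) - x i l‖ < ε := by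
      intro i
      obtain ⟨-, -, h2⟩ := hst i (q : K) (hqK i) (κ' i * m) (hmi i)
      rw [hit] at h2
      obtain ⟨c, hc, h3⟩ := h2 w hw
      have hcc : σ i (cP j) ≠ 0 := (map_ne_zero _).2 (hcP0 j)
      refine ⟨c / σ i (cP j), div_ne_zero hc hcc, fun l => ?_⟩
      have h4 := h3 l
      rw [Pi.smul_apply, smul_eq_mul] at h4
      have h5 : c * σ i (w l) - σ i (cP j) * x i l =
          σ i (cP j) * (c / σ i (cP j) * σ i (w l) - x i l) := by
        field_simp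
      rw [h5, norm_mul] at h4
      have h6 := h4.trans_le (hε'i i)
      rw [mul_comm] at h6
      exact lt_of_mul_lt_mul_right h6 (hcn i).le
    choose c hc0 hc using hcw
    have hyS : ∀ q' ∈ S, eval (fun i => (r j i).eval (q : K)) q' = 0 := fun q' hq' => by
      rw [eval_cv', hr j q' hq', Polynomial.eval_zero]
    obtain ⟨hw0, hwS⟩ := hw.mem h1 hyS
    refine ⟨fun i l => c i * σ i (w l), ⟨w, hw0, hwS, fun i => ⟨c i, hc0 i, rfl⟩⟩, ?_⟩
    rw [dist_comm, dist_pi_lt_iff hε]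
    intro i
    rw [dist_pi_lt_iff hε]
    intro l
    rw [dist_eq_norm]
    exact hc i l

end Pool.Agent.K1H47.RA
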