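import Pool.Agent.K1H47.RA.Rev
import Pool.Agent.K1H47.RC.Glob2

set_option autoImplicit false

/-! The global theorem at the points with a reversing map. -/

namespace Pool.Agent.K1H47.RA

open MvPolynomial Topology Filter Pool.Agent.H936R2 Pool.Agent.R847.Gap Pool.Agent.K1H69.MZ
open Pool.Agent.K1H47.RC

theorem interior_rev (hVEL : S_VEL) (hREV : S_REV) (K : Type) [Field K] [NumberField K] (n : ℕ)
    (S : Set (MvPolynomial (Fin (n + 1)) K)) (hS : ∀ q ∈ S, ∃ d : ℕ, q.IsHomogeneous d)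
    (φ : Aut S) : ∃ N : ℕ, 0 < N ∧ ∀ P : Fin (n + 1) → K, P ≠ 0 →
      Module.finrank K (tanSp S P) ≤ 3 →
      (∀ k : ℕ, 0 < k → ∀ w, Img φ k P w → ¬ ∃ c : K, w = c • P) →
      ∀ (r : Fin (n + 1) → Polynomial K) (s : K),
      (∀ q ∈ S, aeval r q = 0) →
      (∃ c : K, c ≠ 0 ∧ (fun i => (r i).eval s) = c • P) →
      ∀ (Ψ : Fin (n + 1) → MvPolynomial (Fin (n + 1)) K) (d : ℕ), (∀ i, (Ψ i).IsHomogeneous d) →
      ∀ l : K, l ≠ 0 → (∀ i, eval P (Ψ i) = l * P i) → Reverses φ Ψ P →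
      (∃ i j, P i * dir Ψ l P (fun i => (r i).derivative.eval s) j ≠
        P j * dir Ψ l P (fun i => (r i).derivative.eval s) i) →
      ∀ (ι : Type) [Fintype ι] [Nonempty ι] (p : ι → ℕ) [∀ i, Fact (p i).Prime],
      Function.Injective p → (∀ i, ¬ p i ∣ N) →
      ∀ σ : ∀ i, K →+* ℚ_[p i], ∃ V ∈ 𝓝 (fun i j => σ i (P j)), ∀ x ∈ V,
        (∀ i, ∀ q ∈ S, eval (x i) (map (σ i) q) = 0) → x ∈ closure (rat S σ) := by
  classical
  have hSTRICT := Pool.Agent.K1H99.RC.t_STRICT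
  have hZERO := Pool.Agent.K1H33.RC.t_ZERO
  have hOPEN := Pool.Agent.K1H65.RC.t_OPEN
  have hSMOOTH := Pool.Agent.K1H52.RC.t_SMOOTH
  have hSHAD := Pool.Agent.K1H45.RC.t_SHAD
  have hNEWT := Pool.Agent.K1H33.RC.t_NEWT
  have hDENSE := Pool.Agent.K1H99.RC.t_DENSE
  obtain ⟨N, hN, hred⟩ := Pool.Agent.K1H45.MZ.S_Red_holds K n S hS φ
  refine ⟨N, hN, fun P hP0 hsm hper r s hr hrP Ψ d hΨ l₀ hl₀ hΨP hrev htr ι _ hne p _ hinj hp σ => ?_⟩
  obtain ⟨cP, hcP0, hcP⟩ := hrP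
  have hpp : ∀ i, ‖(p i : ℚ_[p i])‖ < 1 := fun i => Padic.norm_p_lt_one
  have hσ : ∀ i, DenseRange (σ i) := fun i => denseRange_padic (σ i)
  choose F G hF hG hgood using fun i => hred ℚ_[p i] (p i) (hpp i) (σ i) (norm_of_not_dvd (hp i))
  have hproper : ∀ i, ProperSpace ℚ_[p i] := fun i =>
    Pool.Agent.W279.Tri.properSpace_of_denseRange (σ i) (hσ i)
  -- the point
  have hcv : ∀ i, cv (σ i) r (σ i s) = fun l => σ i cP * σ i (P l) := by
    intro i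
    funext l
    have h1 := congrFun hcP l
    simp only [Pi.smul_apply, smul_eq_mul] at h1
    simp only [cv]
    rw [Polynomial.eval₂_at_apply, h1, map_mul]
  have hcv0 : ∀ i, cv (σ i) r (σ i s) ≠ 0 := by
    intro i h0
    obtain ⟨l, hl⟩ := Function.ne_iff.1 hP0
    have h1 := congrFun h0 l
    rw [hcv] at h1
    exact mul_ne_zero ((map_ne_zero _).2 hcP0) ((map_ne_zero _).2 hl) h1
  have hPS : ∀ q ∈ S, eval P q = 0 := by
    intro q hq
    obtain ⟨d, hd⟩ := hS q hq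
    have h1 : eval (fun i => (r i).eval s) q = 0 := by
      rw [eval_cv', hr q hq, Polynomial.eval_zero]
    rw [hcP] at h1
    have h2 : eval (cP • P) q = cP ^ d * eval P q := by
      have := Pool.Agent.K1H69.MZ.eval_hom hd cP P
      exact this
    rw [h2] at h1
    exact (mul_eq_zero.1 h1).resolve_left (pow_ne_zero _ hcP0)
  have htan : ∀ i, Module.finrank ℚ_[p i] (tanSp (MvPolynomial.map (σ i) '' S)
      (cv (σ i) r (σ i s))) ≤ 3 := by
    intro i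
    have hSL : ∀ q ∈ MvPolynomial.map (σ i) '' S, ∃ d : ℕ, q.IsHomogeneous d := by
      rintro _ ⟨q, hq, rfl⟩
      obtain ⟨d, hd⟩ := hS q hq
      exact ⟨d, hd.map (σ i)⟩
    obtain ⟨D, hD, hDs⟩ := hSMOOTH K (Fin (n + 1)) S (fun l => Polynomial.C (P l)) 0 (by
      have e : (fun l => (Polynomial.C (P l)).eval (0 : K)) = P :=
        funext fun l => Polynomial.eval_C
      rw [e]
      exact hsm)
    obtain ⟨x, hx⟩ : ∃ x : ℚ_[p i], (D.map (σ i)).eval x ≠ 0 := by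
      by_contra hcon
      push Not at hcon
      exact (Polynomial.map_ne_zero_iff (σ i).injective).2 hD (Polynomial.funext fun x => by
        rw [hcon x, Polynomial.eval_zero])
    have h1 := hDs ℚ_[p i] (σ i) x (by rwa [Polynomial.eval_map] at hx)
    have e : (fun l => (Polynomial.C (P l)).eval₂ (σ i) x) = fun l => σ i (P l) :=
      funext fun l => Polynomial.eval₂_C _ _
    rw [e] at h1
    rw [hcv]
    have h2 := tanSp_smul hSL (c := σ i cP) ((map_ne_zero _).2 hcP0)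
      (z := fun l => σ i (P l))
    have h3 : (fun l => σ i cP * σ i (P l)) = σ i cP • fun l => σ i (P l) := rfl
    rw [h3, h2]
    exact h1
  have hloc := fun i => @local_at hSTRICT hZERO hOPEN hSHAD hNEWT K _
    (Fin (n + 1)) _ _ ℚ_[p i] _ _ _ (hproper i) (σ i) S (p i) _ (hpp i) hS φ (F i) (G i)
    (hF i) (hgood i) r hr (σ i s) (hcv0 i) (htan i)
  choose c₀ k C C' hc₀ hk hFam hz hl ht hA using hloc
  -- the curve is transversal to the flow at all places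
  have hj : ∀ i, ∃ a b c, mnr (ev (C i) 0 0) (ev (C' i) 0 0) (evt (C i) 0 0) a b c ≠ 0 := by
    intro i₀
    by_contra hcon
    push Not at hcon
    obtain ⟨z₁, hz₁p, hz₁, hz₁P, hw₁⟩ := hz i₀
    obtain ⟨l₁, hl₁0, hl₁⟩ := hl i₀
    obtain ⟨a₁, b₁, ha₁, ht₁⟩ := ht i₀
    have : ProperSpace ℚ_[p i₀] := hproper i₀
    refine rev_single hVEL hREV hS (p i₀) (hpp i₀) (hF i₀) (hgood i₀) hP0 hPS hper hΨ hrev hl₀
      hΨP htr (hk i₀) (hFam i₀) (c₁ := c₀ i₀ * σ i₀ cP)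
      (mul_ne_zero (hc₀ i₀) ((map_ne_zero _).2 hcP0)) hz₁p hz₁ (fun i => ?_) hw₁
      ⟨l₁ * σ i₀ cP, mul_ne_zero hl₁0 ((map_ne_zero _).2 hcP0), fun i => ?_⟩
      ⟨a₁, b₁ * σ i₀ cP, ha₁, fun i => ?_⟩ hcon
    · rw [hz₁P i, hcv, mul_assoc]
    · rw [hl₁ i, hcv, mul_assoc]
    · rw [ht₁ i, hcv, Polynomial.eval₂_at_apply, mul_assoc]
  set κ : ℕ := ∏ i, k i with hκ
  have hκ0 : 0 < κ := Finset.prod_pos fun i _ => hk i
  have hz := fun i => hA i (hj i) κ hκ0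
  -- scaling
  have hsc : ∀ i, ∀ᶠ x in 𝓝 (fun l => σ i (P l)), (∀ q ∈ S, eval x (map (σ i) q) = 0) →
      Appr (σ i) φ r (k i) κ (σ i cP • x) := by
    intro i
    have h1 : Tendsto (fun x : Fin (n + 1) → ℚ_[p i] => σ i cP • x)
        (𝓝 (fun l => σ i (P l))) (𝓝 (cv (σ i) r (σ i s))) := by
      rw [hcv]
      exact (continuous_const_smul (σ i cP)).continuousAt
    filter_upwards [h1.eventually (hz i)] with x hx hxS
    refine hx fun q hq => ?_
    obtain ⟨d, hd⟩ := hS q hq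
    have h2 := Pool.Agent.K1H69.MZ.eval_hom (hd.map (σ i)) (σ i cP) x
    have h3 : (σ i cP • x) = fun l => σ i cP * x l := rfl
    rw [h3, h2, hxS q hq, mul_zero]
  refine ⟨Set.pi Set.univ fun i => {x | (∀ q ∈ S, eval x (map (σ i) q) = 0) →
      Appr (σ i) φ r (k i) κ (σ i cP • x)}, ?_, ?_⟩
  · exact set_pi_mem_nhds Set.finite_univ fun i _ => hsc i
  · intro x hx hxS
    rw [Metric.mem_closure_iff]
    intro ε hε
    have hcn : ∀ i, 0 < ‖σ i cP‖ := fun i => norm_pos_iff.2 ((map_ne_zero _).2 hcP0)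
    obtain ⟨ε', hε', hε'i⟩ : ∃ ε' > (0 : ℝ), ∀ i, ε' ≤ ε * ‖σ i cP‖ := by
      obtain ⟨i, hi⟩ := Finite.exists_min fun i => ε * ‖σ i cP‖
      exact ⟨ε * ‖σ i cP‖, mul_pos hε (hcn i), hi⟩
    choose s' t' ht' δ hδ hst using fun i => hx i (Set.mem_univ i) (hxS i) ε' hε'
    obtain ⟨δ₀, hδ₀, hδ₀i⟩ : ∃ δ₀ > (0 : ℝ), ∀ i, δ₀ ≤ δ i := by
      obtain ⟨i, hi⟩ := Finite.exists_min δ
      exact ⟨δ i, hδ i, hi⟩
    obtain ⟨hnat, hrat⟩ := hDENSE ι p hinj
    obtain ⟨q, hq⟩ := hrat s' δ₀ hδ₀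
    -- the complementary factors
    have hκi : ∀ i, ∃ κ' : ℕ, κ = k i * κ' := fun i =>
      Finset.dvd_prod_of_mem k (Finset.mem_univ i)
    choose κ' hκ' using hκi
    have hκ'0 : ∀ i, (κ' i : ℚ_[p i]) ≠ 0 := by
      intro i
      apply Nat.cast_ne_zero.2
      intro h0
      rw [hκ' i, h0, mul_zero] at hκ0
      exact lt_irrefl _ hκ0
    have hκ'n : ∀ i, 0 < ‖(κ' i : ℚ_[p i])‖ := fun i => norm_pos_iff.2 (hκ'0 i)
    obtain ⟨m, hm⟩ := hnat (fun i => t' i / (κ' i : ℚ_[p i])) (fun i => by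
      rw [norm_div, div_le_one (hκ'n i)]
      refine (ht' i).trans ?_
      rw [hκ' i, Nat.cast_mul, norm_mul]
      exact mul_le_of_le_one_left (norm_nonneg _) (IsUltrametricDist.norm_natCast_le_one _ _))
      δ₀ hδ₀
    have hqK : ∀ i, ‖σ i (q : K) - s' i‖ < δ i := fun i => by
      rw [map_ratCast]; exact (hq i).trans_le (hδ₀i i)
    have hmi : ∀ i, ‖((κ' i * m : ℕ) : ℚ_[p i]) - t' i‖ < δ i := by
      intro i
      have e : ((κ' i * m : ℕ) : ℚ_[p i]) - t' i =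
          (κ' i : ℚ_[p i]) * ((m : ℚ_[p i]) - t' i / (κ' i : ℚ_[p i])) := by
        push_cast
        have := hκ'0 i
        field_simp
      rw [e, norm_mul]
      calc _ ≤ 1 * ‖(m : ℚ_[p i]) - t' i / (κ' i : ℚ_[p i])‖ :=
            mul_le_mul_of_nonneg_right (IsUltrametricDist.norm_natCast_le_one _ _) (norm_nonneg _)
        _ < δ i := by rw [one_mul]; exact (hm i).trans_le (hδ₀i i)
    have hit : ∀ i, k i * (κ' i * m) = κ * m := fun i => by rw [← mul_assoc, ← hκ' i]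
    -- the image exists over `K`
    obtain ⟨i₂⟩ := hne
    obtain ⟨h1, ⟨w, hw⟩, -⟩ := hst i₂ (q : K) (hqK i₂) (κ' i₂ * m) (hmi i₂)
    rw [hit] at hw
    have hcw : ∀ i, ∃ c : ℚ_[p i], c ≠ 0 ∧ ∀ l, ‖c * σ i (w l) - x i l‖ < ε := by
      intro i
      obtain ⟨-, -, h2⟩ := hst i (q : K) (hqK i) (κ' i * m) (hmi i)
      rw [hit] at h2
      obtain ⟨c, hc, h3⟩ := h2 w hw
      have hcc : σ i cP ≠ 0 := (map_ne_zero _).2 hcP0
      refine ⟨c / σ i cP, div_ne_zero hc hcc, fun l => ?_⟩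
      have h4 := h3 l
      rw [Pi.smul_apply, smul_eq_mul] at h4
      have h5 : c * σ i (w l) - σ i cP * x i l =
          σ i cP * (c / σ i cP * σ i (w l) - x i l) := by
        field_simp
      rw [h5, norm_mul] at h4
      have h6 := h4.trans_le (hε'i i)
      rw [mul_comm] at h6
      exact lt_of_mul_lt_mul_right h6 (hcn i).le
    choose c hc0 hc using hcw
    have hyS : ∀ q' ∈ S, eval (fun i => (r i).eval (q : K)) q' = 0 := fun q' hq' => by
      rw [eval_cv', hr q' hq', Polynomial.eval_zero]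
    obtain ⟨hw0, hwS⟩ := hw.mem h1 hyS
    refine ⟨fun i l => c i * σ i (w l), ⟨w, hw0, hwS, fun i => ⟨c i, hc0 i, rfl⟩⟩, ?_⟩
    rw [dist_comm, dist_pi_lt_iff hε]
    intro i
    rw [dist_pi_lt_iff hε]
    intro l
    rw [dist_eq_norm]
    exact hc i l

end Pool.Agent.K1H47.RA
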