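import Pool.Agent.K1H47.RC.Loc5

set_option autoImplicit false

/-! The local theorem at a given point of the curve. -/

namespace Pool.Agent.K1H47.RA

open MvPolynomial Topology Filter Pool.Agent.H936R2 Pool.Agent.R847.Gap Pool.Agent.K1H69.MZ
open Pool.Agent.K1H47.RC

/-- the point `x` is approximated by images of `K`-points of the curve -/
def Appr {K : Type} [Field K] {ι : Type} {L : Type} [NormedField L] (σ : K →+* L)
    {S : Set (MvPolynomial ι K)} (φ : Aut S) (r : ι → Polynomial K) (k : ℕ) (κ : ℕ)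
    (x : ι → L) : Prop :=
  ∀ ε > (0 : ℝ), ∃ s' t' : L,
    ‖t'‖ ≤ ‖(κ : L)‖ ∧ ∃ δ > (0 : ℝ), ∀ s : K, ‖σ s - s'‖ < δ → ∀ n : ℕ, ‖(n : L) - t'‖ < δ →
      (fun i => (r i).eval s) ≠ 0 ∧ (∃ w, Img φ (k * n) (fun i => (r i).eval s) w) ∧
      ∀ w, Img φ (k * n) (fun i => (r i).eval s) w →
        ∃ c : L, c ≠ 0 ∧ ∀ i, ‖c * σ (w i) - x i‖ < ε

/-- tangent vectors of the family -/
lemma tangent {ι : Type} {L : Type} [NontriviallyNormedField L] {C C' : ι → ℕ → L → L} {ρ₀ : ℝ}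
    (hC : Fam ρ₀ C C') (R R' : ι → L → L)
    (hR : ∀ i s, HasDerivAt (R i) (R' i s) s)
    (hCR : ∀ s, ‖s‖ ≤ 1 → ∃ l : L, l ≠ 0 ∧ ∀ i, C i 0 s = l * R i s) {s : L} (hs : ‖s‖ < 1)
    (h0 : ∃ i, R i s ≠ 0) :
    ∃ a b : L, a ≠ 0 ∧ ∀ i, C' i 0 s = a * R' i s + b * R i s := by
  obtain ⟨j, hj⟩ := h0
  obtain ⟨l, hl, hls⟩ := hCR s hs.le
  have hd : ∀ i, HasDerivAt (C i 0) (C' i 0 s) s := fun i => (hC i 0).hasDerivAt hs
  refine ⟨l, (C' j 0 s - l * R' j s) / R j s, hl, fun i => ?_⟩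
  -- the products are equal near `s`
  have h1 : (fun x => C i 0 x * R j x) =ᶠ[𝓝 s] fun x => C j 0 x * R i x := by
    have h2 : ∀ᶠ x in 𝓝 s, ‖x‖ < 1 := continuous_norm.continuousAt.eventually_lt
      continuousAt_const hs
    filter_upwards [h2] with x hx
    obtain ⟨l', -, h3⟩ := hCR x hx.le
    rw [h3 i, h3 j]
    ring
  have h2 := ((hd i).mul (hR j s))
  have h3 := ((hd j).mul (hR i s))
  have h4 : C' i 0 s * R j s + C i 0 s * R' j s = C' j 0 s * R i s + C j 0 s * R' i s :=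
    h2.unique (h3.congr_of_eventuallyEq h1)
  rw [hls i, hls j] at h4
  field_simp
  linear_combination h4

/-- **The local theorem.** -/
theorem local_at (hSTRICT : S_STRICT) (hZERO : S_ZERO) (hOPEN : S_OPEN)
    (hSHAD : S_SHAD) (hNEWT : S_NEWT)
    {K : Type} [Field K] {ι : Type} [Fintype ι]
    [DecidableEq ι] {L : Type} [NontriviallyNormedField L] [IsUltrametricDist L] [CharZero L]
    [ProperSpace L] {σ : K →+* L} {S : Set (MvPolynomial ι K)}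
    (p : ℕ) [hp : Fact p.Prime] (hpL : ‖(p : L)‖ < 1)
    (hS : ∀ s ∈ S, ∃ d : ℕ, s.IsHomogeneous d) {φ : Aut S}
    {F G : Sys L ι (Fin φ.m)} (hF : Lifts σ φ.f F) (h : Good (QS σ S) F G)
    (r : ι → Polynomial K) (hr : ∀ q ∈ S, aeval r q = 0)
    (s₀ : L) (hx₀ : cv σ r s₀ ≠ 0)
    (htan : Module.finrank L (tanSp (MvPolynomial.map σ '' S) (cv σ r s₀)) ≤ 3) :
    ∃ (c₀ : L) (k : ℕ) (C C' : ι → ℕ → L → L), c₀ ≠ 0 ∧ 0 < k ∧ Fam ‖(p : L)‖ C C' ∧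
      (∃ z : ι → unitBall L, Prim z ∧ z ∈ ZS (QS σ S) ∧ (∀ i, (z i : L) = c₀ * cv σ r s₀ i) ∧
        ∀ n : ℕ, ∃ w : ι → unitBall L, Prim w ∧ (∀ i, (w i : L) = ev C 0 n i) ∧
          Rp F (k * n) z w) ∧
      (∃ l : L, l ≠ 0 ∧ ∀ i, ev C 0 0 i = l * cv σ r s₀ i) ∧
      (∃ a b : L, a ≠ 0 ∧ ∀ i, ev C' 0 0 i = a * (r i).derivative.eval₂ σ s₀ +
        b * cv σ r s₀ i) ∧
      ((∃ i j l, mnr (ev C 0 0) (ev C' 0 0) (evt C 0 0) i j l ≠ 0) → ∀ κ : ℕ, 0 < κ →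
        ∀ᶠ x in 𝓝 (cv σ r s₀), (∀ q ∈ S, eval x (map σ q) = 0) → Appr σ φ r k κ x) := by
  have hp0 := norm_p_pos' (L := L) p
  have hpne : (p : L) ≠ 0 := Nat.cast_ne_zero.2 hp.out.ne_zero
  -- polynomial identities along the curve
  have hcvW : ∀ W : MvPolynomial ι K, aeval r W = 0 → ∀ s : L, eval (cv σ r s) (map σ W) = 0 := by
    intro W hW s
    rw [eval_cv, hW, Polynomial.eval₂_zero]
  have hcvK : ∀ q ∈ S, ∀ s : K, eval (fun i => (r i).eval s) q = 0 := fun q hq s => by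
    rw [eval_cv', hr q hq, Polynomial.eval_zero]
  obtain ⟨c₀, m, k, C, C', hc₀, hk, hFam, hfam⟩ := family hSHAD hNEWT p hpL hS h r
    (fun q hq s => by
      have h1 := hcvW q (hr q hq) s
      rw [eval_map] at h1
      exact h1) s₀ hx₀
  have hpm : (p : L) ^ m ≠ 0 := pow_ne_zero _ hpne
  -- the link with the `K`-points
  have hlink : ∀ (s' : K) (s : L), ‖s‖ ≤ 1 → σ s' = s₀ + (p : L) ^ m * s → ∀ n : ℕ,
      (fun i => (r i).eval s') ≠ 0 ∧ (∃ v, Img φ (k * n) (fun i => (r i).eval s') v) ∧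
      ∀ v, Img φ (k * n) (fun i => (r i).eval s') v →
        ∃ c : L, c ≠ 0 ∧ ∀ i, ev C s n i = c * σ (v i) := by
    intro s' s hs hs' n
    obtain ⟨z, w, hzp, hz, hzi, hwp, hwi, hRp⟩ := hfam s hs n
    have hPr : Pr σ z (fun i => (r i).eval s') := by
      refine ⟨c₀⁻¹, inv_ne_zero hc₀, fun i => ?_⟩
      rw [hzi i, ← hs', Polynomial.eval₂_at_apply]
    obtain ⟨h1, h2⟩ := link hF h hzp hz hwp hRp (fun q hq => hcvK q hq s') hPr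
    refine ⟨hPr.ne_zero hzp, h1, fun v hv => ?_⟩
    obtain ⟨c, hc, h3⟩ := h2 v hv
    exact ⟨c, hc, fun i => by rw [← hwi i, h3 i]⟩
  -- the equations
  have hZ : ∀ q ∈ S, ∀ s t : L, ‖s‖ ≤ 1 → ‖t‖ ≤ 1 → eval (ev C s t) (map σ q) = 0 := by
    intro q hq s t hs ht
    refine hZERO L ι ‖(p : L)‖ hp0.le hpL C C' hFam (map σ q) s hs _
      (acc_multiples p hpL one_pos one_pos) ?_ t ht
    rintro _ ⟨n, -, rfl, -⟩ -
    obtain ⟨z, w, hzp, hz, -, -, hwi, hRp⟩ := hfam s hs n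
    have h1 := eval_of_mem_ZS p hpL (Rp.mem h hz hzp hRp).1 hq
    have h2 : (fun i => (w i : L)) = ev C s n := funext hwi
    rwa [h2] at h1
  -- the time zero
  have hC0 : ∀ s : L, ‖s‖ ≤ 1 → ∃ l : L, l ≠ 0 ∧
      ∀ i, C i 0 s = l * cv σ r (s₀ + (p : L) ^ m * s) i := by
    intro s hs
    obtain ⟨z, w, hzp, hz, hzi, hwp, hwi, hRp⟩ := hfam s hs 0
    rw [Nat.mul_zero] at hRp
    obtain ⟨c, hc, hw⟩ := hRp.2.eq_smul hzp hwp
    have hcne : (c : L) ≠ 0 := by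
      intro h0
      unfold nm at hc
      rw [h0, norm_zero] at hc
      exact zero_ne_one hc
    refine ⟨(c : L) * c₀⁻¹, mul_ne_zero hcne (inv_ne_zero hc₀), fun i => ?_⟩
    have h1 := hwi i
    rw [Nat.cast_zero, ev_zero] at h1
    rw [← h1, hw]
    push_cast
    rw [hzi i, mul_assoc]
    rfl
  -- the tangent vector
  have htg := tangent hFam (fun i s => cv σ r (s₀ + (p : L) ^ m * s) i)
    (fun i s => (p : L) ^ m * (r i).derivative.eval₂ σ (s₀ + (p : L) ^ m * s))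
    (fun i s => hasDerivAt_cv r s₀ _ i s) hC0 (s := 0) (by simp) (by
      rw [mul_zero, add_zero]
      exact Function.ne_iff.1 hx₀)
  rw [mul_zero, add_zero] at htg
  -- the scale
  obtain ⟨l₀, hl₀, hl₀i⟩ := hC0 0 (by simp)
  rw [mul_zero, add_zero] at hl₀i
  set μ : L := l₀⁻¹ with hμ
  have hμ0 : μ ≠ 0 := inv_ne_zero hl₀
  have hx₀μ : μ • ev C 0 0 = cv σ r s₀ := by
    funext i
    rw [Pi.smul_apply, ev_zero, hl₀i i, smul_eq_mul, hμ, inv_mul_cancel_left₀ hl₀]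
  have hcont : ∀ s₁ t₁ : L, ‖s₁‖ ≤ 1 → ‖t₁‖ ≤ 1 →
      ContinuousAt (fun q : L × L => ev C q.1 q.2) (s₁, t₁) := by
    intro s₁ t₁ h1 h2
    obtain ⟨D, -, hD⟩ := hSTRICT L ι ‖(p : L)‖ hp0.le hpL C C' hFam s₁ t₁ h1 h2
    exact hD.continuousAt
  have hSL : ∀ q ∈ MvPolynomial.map σ '' S, ∃ d : ℕ, q.IsHomogeneous d := by
    rintro _ ⟨q, hq, rfl⟩
    obtain ⟨d, hd⟩ := hS q hq
    exact ⟨d, hd.map σ⟩
  have hz2 : Module.finrank L (tanSp (MvPolynomial.map σ '' S) (μ • ev C 0 0)) ≤ 3 := by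
    rw [hx₀μ]; exact htan
  refine ⟨c₀⁻¹, k, C, C', inv_ne_zero hc₀, hk, hFam, ?_, ?_, ?_, ?_⟩
  · obtain ⟨z, w, hzp, hz, hzi, hwp, hwi, hRp⟩ := hfam 0 (by simp) 0
    rw [mul_zero, add_zero] at hzi
    refine ⟨z, hzp, hz, hzi, fun n => ?_⟩
    obtain ⟨z', w', hzp', hz', hzi', hwp', hwi', hRp'⟩ := hfam 0 (by simp) n
    rw [mul_zero, add_zero] at hzi'
    have e : z' = z := by
      funext i
      apply Subtype.ext
      rw [hzi' i, hzi i]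
    rw [e] at hRp'
    exact ⟨w', hwp', hwi', hRp'⟩
  · exact ⟨l₀, hl₀, fun i => by rw [ev_zero]; exact hl₀i i⟩
  · obtain ⟨a, b, ha, hab⟩ := htg
    refine ⟨a * (p : L) ^ m, b, mul_ne_zero ha hpm, fun i => ?_⟩
    rw [ev_zero, hab i, mul_assoc]
  rintro ⟨i, j, l, hmin⟩ κ hκ
  have hκ0 : 0 < ‖(κ : L)‖ := norm_pos_iff.2 (Nat.cast_ne_zero.2 hκ.ne')
  obtain ⟨s₁, n₁, hs₁e, hn₁e⟩ : ∃ (s₁ : L) (n₁ : ℕ), s₁ = 0 ∧ n₁ = 0 := ⟨0, 0, rfl, rfl⟩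
  have hpt : s₀ + (p : L) ^ m * s₁ = s₀ := by rw [hs₁e, mul_zero, add_zero]
  have hs₁1 : ‖s₁‖ < 1 := by rw [hs₁e]; simp
  have ht₁1 : ‖(n₁ : L)‖ < 1 := by rw [hn₁e]; simp
  replace hmin : mnr (ev C s₁ n₁) (ev C' s₁ n₁) (evt C s₁ n₁) i j l ≠ 0 := by
    rw [hs₁e, hn₁e, Nat.cast_zero]; exact hmin
  replace hz2 : Module.finrank L (tanSp (MvPolynomial.map σ '' S) (μ • ev C s₁ n₁)) ≤ 3 := by
    rw [hs₁e, hn₁e, Nat.cast_zero]; exact hz2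
  rw [← hpt]
  obtain ⟨D, hD, hstr⟩ := hSTRICT L ι ‖(p : L)‖ hp0.le hpL C C' hFam s₁ n₁ hs₁1.le ht₁1.le
  have hlt : ∀ᶠ b : L × L in 𝓝 (s₁, (n₁ : L)), ‖b.1‖ < 1 ∧ ‖b.2‖ < 1 := by
    have h1 : ContinuousAt (fun b : L × L => ‖b.1‖) (s₁, (n₁ : L)) := by fun_prop
    have h2 : ContinuousAt (fun b : L × L => ‖b.2‖) (s₁, (n₁ : L)) := by fun_prop
    exact (h1.eventually_lt continuousAt_const hs₁1).and
      (h2.eventually_lt continuousAt_const ht₁1)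
  have hN : {b : L × L | (‖b.1‖ < 1 ∧ ‖b.2‖ < 1) ∧ ‖b.2 - (n₁ : L)‖ < ‖(κ : L)‖} ∈
      𝓝 (s₁, (n₁ : L)) := by
    have h2 : ContinuousAt (fun b : L × L => ‖b.2 - (n₁ : L)‖) (s₁, (n₁ : L)) := by fun_prop
    exact hlt.and (h2.eventually_lt continuousAt_const (by simpa using hκ0))
  have hop := hOPEN L ι (MvPolynomial.map σ '' S) hSL (fun q : L × L => ev C q.1 q.2)
    (s₁, (n₁ : L)) D hstr (hlt.mono fun b hb => by
      rintro _ ⟨q, hq, rfl⟩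
      exact hZ q hq b.1 b.2 hb.1.le hb.2.le)
    ⟨i, j, l, by
      have h1 : D (1, 0) = ev C' s₁ n₁ := by rw [hD, one_smul, zero_smul, add_zero]
      have h2 : D (0, 1) = evt C s₁ n₁ := by rw [hD, one_smul, zero_smul, zero_add]
      rw [h1, h2]
      exact hmin⟩ (by rwa [tanSp_smul hSL hμ0] at hz2) _ hN
  -- the tuple of the iterate of order `k * n₁` near the point of the curve
  obtain ⟨z₁, w₁, hz₁p, hz₁, hz₁i, hw₁p, hw₁i, hRp₁⟩ := hfam s₁ hs₁1.le n₁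
  have hδp0 : 0 ≤ ‖(p : L)‖ ^ 2 := by positivity
  have hδp := sq_lt (L := L) p hpL
  obtain ⟨Fn, D', hFnh, hFn⟩ := chain h hδp0 hδp hz₁ hz₁p (k * n₁)
  obtain ⟨hq1, hq2⟩ := hFn z₁ hz₁ hz₁p (Cl.self hδp0 _)
  have hcl₁ := Rp.contr h le_rfl zero_lt_one hz₁ hz₁p hz₁ hz₁p (Cl.self le_rfl _) hq2 hRp₁
  obtain ⟨c₁, hc₁, hw₁⟩ := hcl₁.eq_smul hq1 hw₁p
  have hc₁0 : (c₁ : L) ≠ 0 := by
    intro h0
    unfold nm at hc₁
    rw [h0, norm_zero] at hc₁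
    exact zero_ne_one hc₁
  -- the continuous map
  set Θ : (ι → L) → (ι → L) := fun y i =>
    (c₁ : L) * eval y (map (unitBall L).subtype (Fn i)) with hΘ
  have hΘc : Continuous Θ := by
    apply continuous_pi
    intro i
    exact continuous_const.mul (MvPolynomial.continuous_eval _)
  have hΘz : ∀ y : ι → unitBall L, Θ (fun i => (y i : L)) = fun i => ((c₁ * pt Fn y i : unitBall L) : L) := by
    intro y
    funext i
    simp only [hΘ]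
    rw [← eval_coe]
    push_cast
    rfl
  have hΘ1 : Θ (fun i => (z₁ i : L)) = ev C s₁ n₁ := by
    rw [hΘz]
    funext i
    rw [← hw₁i i, hw₁]
  have hbase : (fun i => (z₁ i : L)) = c₀⁻¹ • cv σ r (s₀ + (p : L) ^ m * s₁) := by
    funext i
    rw [hz₁i i]
    rfl
  have hev1 : ∀ᶠ x in 𝓝 (cv σ r (s₀ + (p : L) ^ m * s₁)),
      ‖c₀⁻¹ • x - fun i => (z₁ i : L)‖ < ‖(p : L)‖ ^ 2 := by
    have h1 : ContinuousAt (fun x : ι → L => ‖c₀⁻¹ • x - fun i => (z₁ i : L)‖)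
        (cv σ r (s₀ + (p : L) ^ m * s₁)) := by fun_prop
    apply h1.eventually_lt continuousAt_const
    rw [← hbase, sub_self, norm_zero]
    positivity
  have hev2 : ∀ᶠ x in 𝓝 (cv σ r (s₀ + (p : L) ^ m * s₁)),
      ((∀ q ∈ MvPolynomial.map σ '' S, eval (Θ (c₀⁻¹ • x)) q = 0) →
        ∃ l : L, l ≠ 0 ∧ ∃ b ∈ {b : L × L | (‖b.1‖ < 1 ∧ ‖b.2‖ < 1) ∧
          ‖b.2 - (n₁ : L)‖ < ‖(κ : L)‖}, Θ (c₀⁻¹ • x) = l • ev C b.1 b.2) := by
    have h1 : ContinuousAt (fun x : ι → L => Θ (c₀⁻¹ • x)) (cv σ r (s₀ + (p : L) ^ m * s₁)) :=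
      (hΘc.comp (continuous_const_smul c₀⁻¹)).continuousAt
    have h2 : Θ (c₀⁻¹ • cv σ r (s₀ + (p : L) ^ m * s₁)) = ev C s₁ n₁ := by
      rw [← hbase, hΘ1]
    have h3 : Tendsto (fun x : ι → L => Θ (c₀⁻¹ • x)) (𝓝 (cv σ r (s₀ + (p : L) ^ m * s₁)))
        (𝓝 (ev C s₁ n₁)) := by
      rw [← h2]; exact h1
    exact h3.eventually hop
  filter_upwards [hev1, hev2] with x hx1 hx2 hxS ε hε
  -- the point over the integers
  have hxn : ∀ i, ‖c₀⁻¹ * x i - (z₁ i : L)‖ < ‖(p : L)‖ ^ 2 := fun i =>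
    (norm_le_pi_norm (c₀⁻¹ • x - fun i => (z₁ i : L)) i).trans_lt hx1
  have hx'1 : ∀ i, ‖c₀⁻¹ * x i‖ ≤ 1 := by
    intro i
    have h1 : c₀⁻¹ * x i = (c₀⁻¹ * x i - (z₁ i : L)) + (z₁ i : L) := by ring
    rw [h1]
    exact (IsUltrametricDist.norm_add_le_max _ _).trans
      (max_le ((hxn i).le.trans hδp.le) (unitBall_norm_le _))
  let x' : ι → unitBall L := fun i => ⟨c₀⁻¹ * x i, hx'1 i⟩
  have hx'near : ∀ i, nm (x' i - 1 * z₁ i) ≤ ‖(p : L)‖ ^ 2 := by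
    intro i
    rw [one_mul]
    exact (hxn i).le
  have hx'p : Prim x' := Prim.of_near hδp nm_one hz₁p hx'near
  have hx'Z : x' ∈ ZS (QS σ S) := mem_ZS_of_L hS (fun q hq => by
    have h1 := hxS q hq
    rwa [eval_map] at h1) (c := c₀⁻¹) fun i => rfl
  obtain ⟨hg1, hg2⟩ := hFn x' hx'Z hx'p (Cl.of_near hx'near)
  have hΘx : Θ (c₀⁻¹ • x) = fun i => ((c₁ * pt Fn x' i : unitBall L) : L) := hΘz x'
  obtain ⟨l', hl', b, ⟨⟨hb1, hb2⟩, hb3⟩, hxb⟩ := hx2 (by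
    rintro _ ⟨q, hq, rfl⟩
    obtain ⟨d, hd⟩ := hS q hq
    have h1 := eval_of_mem_ZS p hpL (Rp.mem h hx'Z hx'p hg2).1 hq
    have h2 : (fun i => ((c₁ * pt Fn x' i : unitBall L) : L)) =
        fun i => (c₁ : L) * ((pt Fn x' i : unitBall L) : L) := by
      funext i; push_cast; rfl
    rw [hΘx, h2, eval_hom (hd.map σ), h1, mul_zero])
  rw [hΘx] at hxb
  refine ⟨s₀ + (p : L) ^ m * b.1, b.2 - (n₁ : L), hb3.le, ?_⟩
  -- the tolerance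
  have hc₀n : 0 < ‖c₀‖ := norm_pos_iff.2 hc₀
  have hl'n : 0 < ‖l'‖ := norm_pos_iff.2 hl'
  set η : ℝ := min (1 / 2) (ε / (2 * ‖c₀‖)) with hη
  have hη0 : 0 < η := lt_min (by norm_num) (by positivity)
  have hη1 : η < 1 := (min_le_left _ _).trans_lt (by norm_num)
  obtain ⟨δ₁, hδ₁, h2⟩ := Metric.continuousAt_iff.1 (hcont b.1 b.2 hb1.le hb2.le) (η / ‖l'‖)
    (by positivity)
  have hpm' : 0 < ‖(p : L) ^ m‖ := norm_pos_iff.2 hpm
  have hpm1 : ‖(p : L) ^ m‖ ≤ 1 := by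
    rw [norm_pow]; exact pow_le_one₀ hp0.le hpL.le
  have hmin1 : 0 < min δ₁ 1 := lt_min hδ₁ one_pos
  refine ⟨‖(p : L) ^ m‖ * min δ₁ 1, by positivity, fun s hs n hn => ?_⟩
  set s'' : L := (σ s - s₀) / (p : L) ^ m with hs''
  have hpar : σ s = s₀ + (p : L) ^ m * s'' := by
    rw [hs'']
    field_simp
    ring
  have h3 : ‖s'' - b.1‖ < min δ₁ 1 := by
    have h4 : (p : L) ^ m * (s'' - b.1) = σ s - (s₀ + (p : L) ^ m * b.1) := by
      rw [hpar]; ring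
    have h5 : ‖(p : L) ^ m‖ * ‖s'' - b.1‖ < ‖(p : L) ^ m‖ * min δ₁ 1 := by
      rw [← norm_mul, h4]; exact hs
    exact lt_of_mul_lt_mul_left h5 hpm'.le
  have h6 : ‖s''‖ ≤ 1 := by
    have h7 : s'' = (s'' - b.1) + b.1 := by ring
    rw [h7]
    exact (IsUltrametricDist.norm_add_le_max _ _).trans
      (max_le (h3.le.trans (min_le_right _ _)) hb1.le)
  have h8 : ‖((n + n₁ : ℕ) : L) - b.2‖ < δ₁ := by
    have e : ((n + n₁ : ℕ) : L) - b.2 = (n : L) - (b.2 - (n₁ : L)) := by push_cast; ring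
    rw [e]
    refine hn.trans_le ?_
    calc ‖(p : L) ^ m‖ * min δ₁ 1 ≤ 1 * min δ₁ 1 :=
          mul_le_mul_of_nonneg_right hpm1 hmin1.le
      _ ≤ δ₁ := by rw [one_mul]; exact min_le_left _ _
  obtain ⟨g1, g2, g3⟩ := hlink s s'' h6 hpar n
  refine ⟨g1, g2, fun w hw => ?_⟩
  obtain ⟨c, hc, h9⟩ := g3 w hw
  -- the two members of the family
  obtain ⟨z₂, w₂, hz₂p, hz₂, hz₂i, hw₂p, hw₂i, hRp₂⟩ := hfam s'' h6 n
  obtain ⟨z₃, w₃, hz₃p, hz₃, hz₃i, hw₃p, hw₃i, hRp₃⟩ := hfam s'' h6 (n + n₁)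
  have hzz : z₃ = z₂ := by
    funext i
    apply Subtype.ext
    rw [hz₃i i, hz₂i i]
  rw [hzz, Nat.mul_add] at hRp₃
  obtain ⟨v, hv1, hv2⟩ := (Rp.add h hz₂ hz₂p (k * n) (k * n₁)).1 hRp₃
  obtain ⟨hvZ, hvp⟩ := Rp.mem h hz₂ hz₂p hv1
  have hcl2 := Rp.contr h le_rfl zero_lt_one hz₂ hz₂p hz₂ hz₂p (Cl.self le_rfl _) hRp₂ hv1
  -- closeness after the iterate
  have h10 : dist ((s'', ((n + n₁ : ℕ) : L)) : L × L) b < δ₁ := by
    rw [Prod.dist_eq, dist_eq_norm, dist_eq_norm]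
    exact max_lt (h3.trans_le (min_le_left _ _)) h8
  have h11 := h2 h10
  rw [dist_eq_norm] at h11
  have h12 : ∀ i, ‖(w₃ i : L) - ev C b.1 b.2 i‖ ≤ η / ‖l'‖ := by
    intro i
    rw [hw₃i i]
    exact ((norm_le_pi_norm _ i).trans_lt h11).le
  have hcl3 : Cl η w₃ (pt Fn x') := by
    intro i j
    have h13 : ∀ i, ((pt Fn x' i : unitBall L) : L) = (c₁ : L)⁻¹ * (l' * ev C b.1 b.2 i) := by
      intro i
      have h14 := congrFun hxb i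
      simp only [Pi.smul_apply, smul_eq_mul] at h14
      rw [← h14]
      push_cast
      rw [inv_mul_cancel_left₀ hc₁0]
    have hc₁n : ‖(c₁ : L)‖ = 1 := hc₁
    change ‖((w₃ i * pt Fn x' j - w₃ j * pt Fn x' i : unitBall L) : L)‖ ≤ η
    push_cast
    rw [h13 i, h13 j]
    have e : (w₃ i : L) * ((c₁ : L)⁻¹ * (l' * ev C b.1 b.2 j)) -
        (w₃ j : L) * ((c₁ : L)⁻¹ * (l' * ev C b.1 b.2 i)) =
        (c₁ : L)⁻¹ * l' * ((w₃ j : L) * ((w₃ i : L) - ev C b.1 b.2 i) -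
          (w₃ i : L) * ((w₃ j : L) - ev C b.1 b.2 j)) := by ring
    rw [e, norm_mul, norm_mul, norm_inv, hc₁n, inv_one, one_mul]
    have h15 : ‖(w₃ j : L) * ((w₃ i : L) - ev C b.1 b.2 i) -
          (w₃ i : L) * ((w₃ j : L) - ev C b.1 b.2 j)‖ ≤ η / ‖l'‖ := by
      rw [sub_eq_add_neg]
      refine (IsUltrametricDist.norm_add_le_max _ _).trans (max_le ?_ ?_)
      · rw [norm_mul]
        exact (mul_le_of_le_one_left (norm_nonneg _) (unitBall_norm_le _)).trans (h12 i)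
      · rw [norm_neg, norm_mul]
        exact (mul_le_of_le_one_left (norm_nonneg _) (unitBall_norm_le _)).trans (h12 j)
    calc ‖l'‖ * _ ≤ ‖l'‖ * (η / ‖l'‖) := mul_le_mul_of_nonneg_left h15 hl'n.le
      _ = η := by field_simp
  have hcl4 : Cl η v x' := Rp.back h hη0.le hη1 hvZ hvp hx'Z hx'p hv2 hg2 hcl3
  have hcl5 : Cl η w₂ x' := (hcl2.mono hη0.le).trans hη1 hw₂p hvp hx'p hcl4
  obtain ⟨c₂, hc₂, h16⟩ := hcl5.near hη1 hw₂p hx'p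
  have hc₂0 : (c₂ : L) ≠ 0 := by
    intro h0
    unfold nm at hc₂
    rw [h0, norm_zero] at hc₂
    exact zero_ne_one hc₂
  refine ⟨c₀ * (c₂ : L) * c, mul_ne_zero (mul_ne_zero hc₀ hc₂0) hc, fun i => ?_⟩
  have h17 : c₀ * (c₂ : L) * c * σ (w i) - x i = - (c₀ * ((x' i : L) - (c₂ : L) * (w₂ i : L))) := by
    have h18 : (x' i : L) = c₀⁻¹ * x i := rfl
    rw [hw₂i i, h9 i, h18]
    field_simp
    ring
  rw [h17, norm_neg, norm_mul]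
  have h19 : ‖(x' i : L) - (c₂ : L) * (w₂ i : L)‖ ≤ η := h16 i
  calc ‖c₀‖ * ‖(x' i : L) - (c₂ : L) * (w₂ i : L)‖ ≤ ‖c₀‖ * (ε / (2 * ‖c₀‖)) :=
        mul_le_mul_of_nonneg_left (h19.trans (min_le_right _ _)) hc₀n.le
    _ = ε / 2 := by field_simp
    _ < ε := by linarith

end Pool.Agent.K1H47.RA
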