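import Pool.Agent.K1H47.RA.Stm

set_option autoImplicit false

/-! Interface: the velocity of an orbit which is reversed by a map. -/

namespace Pool.Agent.K1H47.RA

open MvPolynomial Topology Filter Pool.Agent.H936R2 Pool.Agent.R847.Gap Pool.Agent.K1H69.MZ
open Pool.Agent.K1H47.RC

/-- REV: if a tuple `Ψ` of forms fixes the point `P` and maps the orbit of `P` to the orbit of `P`
in the opposite direction then its differential reverses the velocity. -/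
def S_REV : Prop := ∀ (L : Type) [NontriviallyNormedField L] [IsUltrametricDist L]
  [ProperSpace L] [CharZero L] (p : ℕ) [Fact p.Prime], ‖(p : L)‖ < 1 →
  ∀ (ι : Type) [Fintype ι] [DecidableEq ι] (A B : Type)
  (Q : Set (MvPolynomial ι (unitBall L))) (F : Sys L ι A) (G : Sys L ι B), Good Q F G →
  ∀ z : ι → unitBall L, Prim z → z ∈ ZS Q → ∀ (k : ℕ) (C C' : ι → ℕ → L → L),
  Fam ‖(p : L)‖ C C' →
  (∀ n : ℕ, ∃ w : ι → unitBall L, Prim w ∧ (∀ i, (w i : L) = ev C 0 n i) ∧ Rp F (k * n) z w) →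
  ∀ (Ψ : ι → MvPolynomial ι L) (l : L), l ≠ 0 →
  (∀ i, eval (ev C 0 0) (Ψ i) = l * ev C 0 0 i) →
  (∀ n : ℕ, (∃ i, eval (ev C 0 n) (Ψ i) ≠ 0) → ∃ u : ι → unitBall L, Prim u ∧ u ∈ ZS Q ∧
    (∃ c : L, c ≠ 0 ∧ ∀ i, (u i : L) = c * eval (ev C 0 n) (Ψ i)) ∧ Rp F (k * n) u z) →
  ∀ i j : ι,
    ev C 0 0 i * (∑ m, eval (ev C 0 0) (pderiv m (Ψ j)) * evt C 0 0 m + l * evt C 0 0 j) =
    ev C 0 0 j * (∑ m, eval (ev C 0 0) (pderiv m (Ψ i)) * evt C 0 0 m + l * evt C 0 0 i)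

end Pool.Agent.K1H47.RA
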