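import Pool.Agent.K1H47.RA.Single
import Pool.Agent.K1H47.RA.Stm2

set_option autoImplicit false

/-! One place: a curve whose tangent is not reversed is transversal to a flow which is reversed. -/

namespace Pool.Agent.K1H47.RA

open MvPolynomial Topology Filter Pool.Agent.H936R2 Pool.Agent.R847.Gap Pool.Agent.K1H69.MZ
open Pool.Agent.K1H47.RC

/-- `(dΨ + l)(T)` at the point `P` -/
noncomputable def dir {K : Type} [Field K] {ι : Type} [Fintype ι] (Ψ : ι → MvPolynomial ι K)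
    (l : K) (P T : ι → K) (j : ι) : K := ∑ m, eval P (pderiv m (Ψ j)) * T m + l * T j

/-- `Ψ` maps the forward orbit of `P` to its backward orbit -/
def Reverses {K : Type} [Field K] {ι : Type} {S : Set (MvPolynomial ι K)} (φ : Aut S)
    (Ψ : ι → MvPolynomial ι K) (P : ι → K) : Prop :=
  ∀ (k : ℕ) (w : ι → K), Img φ k P w → (∀ q ∈ S, eval (fun i => eval w (Ψ i)) q = 0) ∧
    ∀ w', Img φ k (fun i => eval w (Ψ i)) w' → ∃ c : K, w' = c • P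

section

variable {K : Type} [Field K] {ι : Type} [Fintype ι]
  [DecidableEq ι] {L : Type} [NontriviallyNormedField L] [IsUltrametricDist L] [CharZero L]
  [ProperSpace L] {σ : K →+* L} {S : Set (MvPolynomial ι K)}

lemma vel_ne (hVEL : S_VEL) (p : ℕ) [hp : Fact p.Prime] (hpL : ‖(p : L)‖ < 1) {φ : Aut S}
    {F G : Sys L ι (Fin φ.m)} (hF : Lifts σ φ.f F) (h : Good (QS σ S) F G)
    {P : ι → K} (hP0 : P ≠ 0) (hPS : ∀ q ∈ S, eval P q = 0)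
    (hper : ∀ k : ℕ, 0 < k → ∀ w, Img φ k P w → ¬ ∃ c : K, w = c • P)
    {k₁ : ℕ} (hk₁ : 0 < k₁) {C₁ C₁' : ι → ℕ → L → L}
    (hC₁ : Fam ‖(p : L)‖ C₁ C₁')
    {c₁ : L} (hc₁ : c₁ ≠ 0)
    {z₁ : ι → unitBall L} (hz₁p : Prim z₁) (hz₁ : z₁ ∈ ZS (QS σ S))
    (hz₁P : ∀ i, (z₁ i : L) = c₁ * σ (P i))
    (hw₁ : ∀ n : ℕ, ∃ w : ι → unitBall L, Prim w ∧ (∀ i, (w i : L) = ev C₁ 0 n i) ∧
      Rp F (k₁ * n) z₁ w)
    {l₁ : L} (hl₁0 : l₁ ≠ 0) (hl₁ : ∀ i, ev C₁ 0 0 i = l₁ * σ (P i)) :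
    ∃ i j, σ (P i) * evt C₁ 0 0 j ≠ σ (P j) * evt C₁ 0 0 i := by
  by_contra hv
  push Not at hv
  have h4 := hVEL L p hpL ι (Fin φ.m) (Fin φ.m) (QS σ S) F G h z₁ hz₁p hz₁ k₁ C₁ C₁' hC₁ hw₁
    (fun i j => by rw [hl₁ i, hl₁ j]; linear_combination l₁ * hv i j) 1
  obtain ⟨w, hwp, hwi, hRp⟩ := hw₁ 1
  obtain ⟨⟨v, hv1⟩, hv2⟩ := link hF h hz₁p hz₁ hwp hRp hPS ⟨c₁, hc₁, hz₁P⟩
  obtain ⟨c, hc, hvc⟩ := hv2 v hv1
  rw [Nat.mul_one] at hv1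
  refine hper k₁ hk₁ v hv1 ?_
  obtain ⟨j, hj⟩ := Function.ne_iff.1 hP0
  have hj' : P j ≠ 0 := hj
  refine ⟨v j / P j, funext fun i => ?_⟩
  have h5 := h4 i j
  rw [← hwi i, ← hwi j, hvc i, hvc j, hl₁ i, hl₁ j] at h5
  have h6 : σ (v i * P j) = σ (v j * P i) := by
    rw [map_mul, map_mul]
    apply mul_left_cancel₀ (mul_ne_zero hc hl₁0)
    linear_combination h5
  have h7 := σ.injective h6
  rw [Pi.smul_apply, smul_eq_mul, div_mul_eq_mul_div, eq_div_iff hj']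
  exact h7

omit [Fintype ι] [DecidableEq ι] [IsUltrametricDist L] [CharZero L] [ProperSpace L] in
lemma eval_smul_map {Ψ : MvPolynomial ι K} {d : ℕ} (hΨ : Ψ.IsHomogeneous d) {x : ι → L} {c : L}
    {y : ι → K} (hx : ∀ i, x i = c * σ (y i)) :
    eval x (map σ Ψ) = c ^ d * σ (eval y Ψ) := by
  have h1 : x = fun i => c * (fun i => σ (y i)) i := funext hx
  rw [h1, Pool.Agent.K1H69.MZ.eval_hom (hΨ.map σ), eval_map]
  congr 1
  exact (MvPolynomial.eval₂_comp_left σ (RingHom.id K) y Ψ).symm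

/-- the reversed orbit at the place -/
lemma rev_rp (hS : ∀ s ∈ S, ∃ d : ℕ, s.IsHomogeneous d) {φ : Aut S}
    {F G : Sys L ι (Fin φ.m)} (hF : Lifts σ φ.f F) (h : Good (QS σ S) F G)
    {P : ι → K} (hPS : ∀ q ∈ S, eval P q = 0)
    {Ψ : ι → MvPolynomial ι K} {d : ℕ} (hΨ : ∀ i, (Ψ i).IsHomogeneous d)
    (hrev : Reverses φ Ψ P) {c₁ : L} (hc₁ : c₁ ≠ 0)
    {z₁ : ι → unitBall L} (hz₁p : Prim z₁) (hz₁ : z₁ ∈ ZS (QS σ S))
    (hz₁P : ∀ i, (z₁ i : L) = c₁ * σ (P i)) {N : ℕ} {w : ι → unitBall L} (hwp : Prim w)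
    {x : ι → L} (hwi : ∀ i, (w i : L) = x i) (hRp : Rp F N z₁ w)
    (hne : ∃ i, eval x (map σ (Ψ i)) ≠ 0) :
    ∃ u : ι → unitBall L, Prim u ∧ u ∈ ZS (QS σ S) ∧
      (∃ c : L, c ≠ 0 ∧ ∀ i, (u i : L) = c * eval x (map σ (Ψ i))) ∧ Rp F N u z₁ := by
  obtain ⟨⟨v, hv1⟩, hv2⟩ := link hF h hz₁p hz₁ hwp hRp hPS ⟨c₁, hc₁, hz₁P⟩
  obtain ⟨c, hc, hvc⟩ := hv2 v hv1
  obtain ⟨hyS, hyP⟩ := hrev N v hv1
  set y : ι → K := fun i => eval v (Ψ i) with hy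
  have hxe : ∀ i, eval x (map σ (Ψ i)) = c ^ d * σ (y i) := fun i =>
    eval_smul_map (hΨ i) fun i => by rw [← hwi i, hvc i]
  -- the primitive representative
  obtain ⟨j₀, hj₀⟩ := hne
  have : Nonempty ι := ⟨j₀⟩
  obtain ⟨j, hj⟩ := Finite.exists_max (fun i => ‖eval x (map σ (Ψ i))‖)
  set e : L := eval x (map σ (Ψ j)) with he
  have he0 : e ≠ 0 := by
    intro h0
    have h1 := hj j₀
    rw [h0, norm_zero] at h1
    exact hj₀ (norm_le_zero_iff.1 h1)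
  have hu1 : ∀ i, ‖e⁻¹ * eval x (map σ (Ψ i))‖ ≤ 1 := by
    intro i
    rw [norm_mul, norm_inv, ← div_eq_inv_mul, div_le_one (norm_pos_iff.2 he0)]
    exact hj i
  let u : ι → unitBall L := fun i => ⟨e⁻¹ * eval x (map σ (Ψ i)), hu1 i⟩
  have hup : Prim u := by
    refine ⟨j, ?_⟩
    change ‖e⁻¹ * eval x (map σ (Ψ j))‖ = 1
    rw [← he, inv_mul_cancel₀ he0, norm_one]
  have hPr : Pr σ u y := by
    refine ⟨e⁻¹ * c ^ d, mul_ne_zero (inv_ne_zero he0) (pow_ne_zero _ hc), fun i => ?_⟩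
    change e⁻¹ * eval x (map σ (Ψ i)) = _
    rw [hxe i, mul_assoc]
  have huZ : u ∈ ZS (QS σ S) := mem_ZS_of_pr hS hPr hyS
  obtain ⟨w', hw'⟩ := Rp.exists h huZ hup N
  have hw'p := (Rp.mem h huZ hup hw').2
  obtain ⟨⟨v', hv'1⟩, hv'2⟩ := link hF h hup huZ hw'p hw' hyS hPr
  obtain ⟨c', hc', hv'c⟩ := hv'2 v' hv'1
  obtain ⟨c'', hc''⟩ := hyP v' hv'1
  refine ⟨u, hup, huZ, ⟨e⁻¹, inv_ne_zero he0, fun i => rfl⟩,
    hw'.congr_right hup hw'p hz₁p ?_⟩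
  intro i j
  have e : w' i * z₁ j - w' j * z₁ i = 0 := by
    apply Subtype.ext
    push_cast
    rw [hv'c i, hv'c j, hz₁P i, hz₁P j, hc'']
    simp only [Pi.smul_apply, smul_eq_mul, map_mul]
    ring
  rw [e]
  exact (nm_eq_zero.2 rfl).le

/-- **One place.** -/
theorem rev_single (hVEL : S_VEL) (hREV : S_REV)
    (hS : ∀ s ∈ S, ∃ d : ℕ, s.IsHomogeneous d)
    (p : ℕ) [hp : Fact p.Prime] (hpL : ‖(p : L)‖ < 1) {φ : Aut S}
    {F G : Sys L ι (Fin φ.m)} (hF : Lifts σ φ.f F) (h : Good (QS σ S) F G)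
    {P : ι → K} (hP0 : P ≠ 0) (hPS : ∀ q ∈ S, eval P q = 0)
    (hper : ∀ k : ℕ, 0 < k → ∀ w, Img φ k P w → ¬ ∃ c : K, w = c • P)
    {Ψ : ι → MvPolynomial ι K} {d : ℕ} (hΨ : ∀ i, (Ψ i).IsHomogeneous d)
    (hrev : Reverses φ Ψ P) {l : K} (hl : l ≠ 0) (hΨP : ∀ i, eval P (Ψ i) = l * P i)
    {T : ι → K} (htr : ∃ i j, P i * dir Ψ l P T j ≠ P j * dir Ψ l P T i)
    {k₁ : ℕ} (hk₁ : 0 < k₁) {C₁ C₁' : ι → ℕ → L → L}
    (hC₁ : Fam ‖(p : L)‖ C₁ C₁')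
    {c₁ : L} (hc₁ : c₁ ≠ 0)
    {z₁ : ι → unitBall L} (hz₁p : Prim z₁) (hz₁ : z₁ ∈ ZS (QS σ S))
    (hz₁P : ∀ i, (z₁ i : L) = c₁ * σ (P i))
    (hw₁ : ∀ n : ℕ, ∃ w : ι → unitBall L, Prim w ∧ (∀ i, (w i : L) = ev C₁ 0 n i) ∧
      Rp F (k₁ * n) z₁ w)
    (hl₁ : ∃ l : L, l ≠ 0 ∧ ∀ i, ev C₁ 0 0 i = l * σ (P i))
    (ht₁ : ∃ a b : L, a ≠ 0 ∧ ∀ i, ev C₁' 0 0 i = a * σ (T i) + b * σ (P i))
    (hm₁ : ∀ i j k, mnr (ev C₁ 0 0) (ev C₁' 0 0) (evt C₁ 0 0) i j k = 0) : False := by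
  obtain ⟨l₁, hl₁0, hl₁⟩ := hl₁
  obtain ⟨a₁, b₁, ha₁, ht₁⟩ := ht₁
  obtain ⟨i₀, j₀, h0⟩ := vel_ne hVEL p hpL hF h hP0 hPS hper hk₁ hC₁ hc₁ hz₁p hz₁ hz₁P hw₁
    hl₁0 hl₁
  have hσl : σ l ≠ 0 := (map_ne_zero _).2 hl
  -- the reversal
  have hR := hREV L p hpL ι (Fin φ.m) (Fin φ.m) (QS σ S) F G h z₁ hz₁p hz₁ k₁ C₁ C₁' hC₁ hw₁
    (fun i => map σ (Ψ i)) (l₁ ^ d * σ l / l₁)
    (div_ne_zero (mul_ne_zero (pow_ne_zero _ hl₁0) hσl) hl₁0)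
    (fun i => by
      rw [eval_smul_map (hΨ i) hl₁, hΨP i, hl₁ i, map_mul]
      field_simp)
    (fun n hn => by
      obtain ⟨w, hwp, hwi, hRp⟩ := hw₁ n
      exact rev_rp hS hF h hPS hΨ hrev hc₁ hz₁p hz₁ hz₁P hwp hwi hRp hn)
  set v : ι → L := evt C₁ 0 0 with hv
  have hpd : ∀ m j, l₁ * eval (ev C₁ 0 0) (pderiv m (map σ (Ψ j))) =
      l₁ ^ d * σ (eval P (pderiv m (Ψ j))) := by
    intro m j
    rw [pderiv_map, eval_smul_map ((hΨ j).pderiv (i := m)) hl₁]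
    rcases Nat.eq_zero_or_pos d with hd | hd
    · have h1 : pderiv m (Ψ j) = 0 := by
        have h2 := hΨ j
        rw [hd, ← totalDegree_zero_iff_isHomogeneous] at h2
        rw [totalDegree_eq_zero_iff_eq_C.1 h2]
        exact pderiv_C
      rw [h1]
      simp
    · obtain ⟨d', rfl⟩ : ∃ d', d = d' + 1 := ⟨d - 1, by omega⟩
      rw [Nat.add_sub_cancel, pow_succ]
      ring
  set D : ι → L := fun j => ∑ m, σ (eval P (pderiv m (Ψ j))) * v m + σ l * v j with hD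
  have hDD : ∀ j, l₁ * (∑ m, eval (ev C₁ 0 0) (pderiv m (map σ (Ψ j))) * v m +
      l₁ ^ d * σ l / l₁ * v j) = l₁ ^ d * D j := by
    intro j
    rw [mul_add, Finset.mul_sum, hD]
    simp only
    rw [mul_add, Finset.mul_sum]
    congr 1
    · refine Finset.sum_congr rfl fun m _ => ?_
      rw [← mul_assoc, hpd, mul_assoc]
    · field_simp
  have hR' : ∀ i j, σ (P i) * D j = σ (P j) * D i := by
    intro i j
    have h1 := hR i j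
    rw [hl₁ i, hl₁ j] at h1
    apply mul_left_cancel₀ (pow_ne_zero d hl₁0)
    have h2 := hDD i
    have h3 := hDD j
    linear_combination h1 - σ (P i) * h3 + σ (P j) * h2
  -- the tangent vector is a combination
  have h1 : ∀ i j k, mnr (fun i => σ (P i)) (fun i => σ (T i)) v i j k = 0 :=
    fun i j k => mnr_lin (d := 1) (e := 0) (f := 0) hl₁0 ha₁ one_ne_zero hl₁ ht₁
      (fun i => by ring) i j k (hm₁ i j k)
  have hd : σ (P i₀) * v j₀ - σ (P j₀) * v i₀ ≠ 0 := sub_ne_zero.2 h0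
  obtain ⟨α, β, hαβ⟩ : ∃ α β : L, ∀ i, σ (T i) = α * σ (P i) + β * v i := by
    refine ⟨(σ (T i₀) * v j₀ - σ (T j₀) * v i₀) / (σ (P i₀) * v j₀ - σ (P j₀) * v i₀),
      (σ (P i₀) * σ (T j₀) - σ (P j₀) * σ (T i₀)) / (σ (P i₀) * v j₀ - σ (P j₀) * v i₀),
      fun i => ?_⟩
    have h1 := h1 i₀ j₀ i
    rw [mnr_eq] at h1
    rw [div_mul_eq_mul_div, div_mul_eq_mul_div, ← add_div, eq_div_iff hd]
    linear_combination -h1
  -- Euler
  have hE : ∀ j, ∑ m, σ (eval P (pderiv m (Ψ j))) * σ (P m) = d * (σ l * σ (P j)) := by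
    intro j
    have h2 := (hΨ j).sum_X_mul_pderiv
    have h3 := congrArg (eval P) h2
    rw [map_sum, map_nsmul, hΨP j] at h3
    have h4 := congrArg σ h3
    rw [map_sum, map_nsmul, map_mul, nsmul_eq_mul] at h4
    rw [← h4]
    refine Finset.sum_congr rfl fun m _ => ?_
    rw [map_mul, map_mul, eval_X, mul_comm]
  have hdir : ∀ j, σ (dir Ψ l P T j) = α * ((d + 1) * (σ l * σ (P j))) + β * D j := by
    intro j
    have h2 : σ (dir Ψ l P T j) = ∑ m, σ (eval P (pderiv m (Ψ j))) * (α * σ (P m) + β * v m) +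
        σ l * (α * σ (P j) + β * v j) := by
      unfold dir
      rw [map_add, map_sum, map_mul, hαβ j]
      congr 1
      refine Finset.sum_congr rfl fun m _ => ?_
      rw [map_mul, hαβ m]
    have h3 : ∑ m, σ (eval P (pderiv m (Ψ j))) * (α * σ (P m) + β * v m) =
        α * (∑ m, σ (eval P (pderiv m (Ψ j))) * σ (P m)) +
        β * ∑ m, σ (eval P (pderiv m (Ψ j))) * v m := by
      rw [Finset.mul_sum, Finset.mul_sum, ← Finset.sum_add_distrib]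
      exact Finset.sum_congr rfl fun m _ => by ring
    rw [h2, h3, hE j, hD]
    ring
  obtain ⟨i, j, hij⟩ := htr
  apply hij
  apply σ.injective
  rw [map_mul, map_mul, hdir i, hdir j]
  linear_combination β * hR' i j

end

end Pool.Agent.K1H47.RA
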