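import Pool.Agent.K1H47.RC.Stm2

set_option autoImplicit false

/-! Interface: the velocity of an orbit. -/

namespace Pool.Agent.K1H47.RA

open MvPolynomial Topology Filter Pool.Agent.H936R2 Pool.Agent.R847.Gap Pool.Agent.K1H69.MZ
open Pool.Agent.K1H47.RC

/-- VEL: an orbit whose velocity at the time zero vanishes (in the projective space) is
constant. -/
def S_VEL : Prop := ∀ (L : Type) [NontriviallyNormedField L] [IsUltrametricDist L]
  [ProperSpace L] [CharZero L] (p : ℕ) [Fact p.Prime], ‖(p : L)‖ < 1 →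
  ∀ (ι : Type) [Fintype ι] [DecidableEq ι] (A B : Type)
  (Q : Set (MvPolynomial ι (unitBall L))) (F : Sys L ι A) (G : Sys L ι B), Good Q F G →
  ∀ z : ι → unitBall L, Prim z → z ∈ ZS Q → ∀ (k : ℕ) (C C' : ι → ℕ → L → L),
  Fam ‖(p : L)‖ C C' →
  (∀ n : ℕ, ∃ w : ι → unitBall L, Prim w ∧ (∀ i, (w i : L) = ev C 0 n i) ∧ Rp F (k * n) z w) →
  (∀ i j, ev C 0 0 i * evt C 0 0 j = ev C 0 0 j * evt C 0 0 i) →
  ∀ (n : ℕ) (i j : ι), ev C 0 n i * ev C 0 0 j = ev C 0 n j * ev C 0 0 i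

/-- PAIR: two parametrizations of the same orbit have proportional velocities. -/
def S_PAIR : Prop := ∀ (L : Type) [NontriviallyNormedField L] [CompleteSpace L]
  [IsUltrametricDist L] [CharZero L] (p : ℕ) [Fact p.Prime], ‖(p : L)‖ < 1 →
  ∀ (ι : Type) [Fintype ι] (C C' E E' : ι → ℕ → L → L),
  Fam ‖(p : L)‖ C C' → Fam ‖(p : L)‖ E E' → ∀ k l : ℕ, 0 < k → 0 < l →
  (∀ (n : ℕ) (i j : ι), ev C 0 ((l * n : ℕ) : L) i * ev E 0 ((k * n : ℕ) : L) j =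
    ev C 0 ((l * n : ℕ) : L) j * ev E 0 ((k * n : ℕ) : L) i) →
  ∀ μ : L, μ ≠ 0 → (∀ i, ev E 0 0 i = μ * ev C 0 0 i) → ev C 0 0 ≠ 0 →
  ∃ a b : L, a ≠ 0 ∧ ∀ i, evt E 0 0 i = a * evt C 0 0 i + b * ev C 0 0 i

end Pool.Agent.K1H47.RA
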