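import Pool.Agent.K1H47.RA.Loc
import Pool.Agent.K1H47.RA.Stm

set_option autoImplicit false

/-! One place: at most one of the curves through the point is tangent to the flow. -/

namespace Pool.Agent.K1H47.RA

open MvPolynomial Topology Filter Pool.Agent.H936R2 Pool.Agent.R847.Gap Pool.Agent.K1H69.MZ
open Pool.Agent.K1H47.RC

lemma mnr_eq {L : Type} [CommRing L] {ι : Type} (u v w : ι → L) (i j k : ι) :
    mnr u v w i j k = u i * (v j * w k - v k * w j) - u j * (v i * w k - v k * w i) +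
      u k * (v i * w j - v j * w i) := by
  unfold mnr
  rw [Matrix.det_fin_three]
  simp
  ring

lemma lin {L : Type} [Field L] {ι : Type} {u x y v : ι → L}
    (huv : ∃ i j, u i * v j ≠ u j * v i) (hx : ∀ i j k, mnr u x v i j k = 0)
    (hy : ∀ i j k, mnr u y v i j k = 0) (i j k : ι) : mnr u x y i j k = 0 := by
  obtain ⟨a, b, hab⟩ := huv
  have hd : u a * v b - u b * v a ≠ 0 := sub_ne_zero.2 hab
  have key : ∀ z : ι → L, (∀ i j k, mnr u z v i j k = 0) → ∃ α β : L, ∀ i,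
      z i = α * u i + β * v i := by
    intro z hz
    refine ⟨(z a * v b - z b * v a) / (u a * v b - u b * v a),
      (u a * z b - u b * z a) / (u a * v b - u b * v a), fun i => ?_⟩
    have h1 := hz a b i
    rw [mnr_eq] at h1
    rw [div_mul_eq_mul_div, div_mul_eq_mul_div, ← add_div, eq_div_iff hd]
    linear_combination -h1
  obtain ⟨α, β, h1⟩ := key x hx
  obtain ⟨γ, δ, h2⟩ := key y hy
  rw [mnr_eq, h1 i, h1 j, h1 k, h2 i, h2 j, h2 k]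
  ring

lemma mnr_lin {L : Type} [Field L] {ι : Type} {u v w u' v' w' : ι → L} {a b c d e f : L}
    (ha : a ≠ 0) (hb : b ≠ 0) (hd : d ≠ 0) (hu : ∀ i, u' i = a * u i)
    (hv : ∀ i, v' i = b * v i + c * u i) (hw : ∀ i, w' i = d * w i + e * v i + f * u i)
    (i j k : ι) (h : mnr u' v' w' i j k = 0) : mnr u v w i j k = 0 := by
  have h1 : mnr u' v' w' i j k = a * b * d * mnr u v w i j k := by
    rw [mnr_eq, mnr_eq, hu i, hu j, hu k, hv i, hv j, hv k, hw i, hw j, hw k]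
    ring
  rw [h1] at h
  exact (mul_eq_zero.1 h).resolve_left (mul_ne_zero (mul_ne_zero ha hb) hd)

/-- **One place.** Two transversal curves through a point which is not periodic are not both
tangent to the flow. -/
theorem single (hVEL : S_VEL) (hPAIR : S_PAIR)
    {K : Type} [Field K] {ι : Type} [Fintype ι]
    [DecidableEq ι] {L : Type} [NontriviallyNormedField L] [IsUltrametricDist L] [CharZero L]
    [ProperSpace L] {σ : K →+* L} {S : Set (MvPolynomial ι K)}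
    (p : ℕ) [hp : Fact p.Prime] (hpL : ‖(p : L)‖ < 1) {φ : Aut S}
    {F G : Sys L ι (Fin φ.m)} (hF : Lifts σ φ.f F) (h : Good (QS σ S) F G)
    {P : ι → K} (hP0 : P ≠ 0) (hPS : ∀ q ∈ S, eval P q = 0)
    (hper : ∀ k : ℕ, 0 < k → ∀ w, Img φ k P w → ¬ ∃ c : K, w = c • P)
    {T₁ T₂ : ι → K} (htr : ∃ i j k, mnr P T₁ T₂ i j k ≠ 0)
    {k₁ k₂ : ℕ} (hk₁ : 0 < k₁) (hk₂ : 0 < k₂) {C₁ C₁' C₂ C₂' : ι → ℕ → L → L}
    (hC₁ : Fam ‖(p : L)‖ C₁ C₁') (hC₂ : Fam ‖(p : L)‖ C₂ C₂')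
    {c₁ c₂ : L} (hc₁ : c₁ ≠ 0)
    {z₁ : ι → unitBall L} (hz₁p : Prim z₁) (hz₁ : z₁ ∈ ZS (QS σ S))
    (hz₁P : ∀ i, (z₁ i : L) = c₁ * σ (P i))
    (hw₁ : ∀ n : ℕ, ∃ w : ι → unitBall L, Prim w ∧ (∀ i, (w i : L) = ev C₁ 0 n i) ∧
      Rp F (k₁ * n) z₁ w)
    {z₂ : ι → unitBall L} (hz₂p : Prim z₂) (hz₂ : z₂ ∈ ZS (QS σ S))
    (hz₂P : ∀ i, (z₂ i : L) = c₂ * σ (P i))
    (hw₂ : ∀ n : ℕ, ∃ w : ι → unitBall L, Prim w ∧ (∀ i, (w i : L) = ev C₂ 0 n i) ∧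
      Rp F (k₂ * n) z₂ w)
    (hl₁ : ∃ l : L, l ≠ 0 ∧ ∀ i, ev C₁ 0 0 i = l * σ (P i))
    (hl₂ : ∃ l : L, l ≠ 0 ∧ ∀ i, ev C₂ 0 0 i = l * σ (P i))
    (ht₁ : ∃ a b : L, a ≠ 0 ∧ ∀ i, ev C₁' 0 0 i = a * σ (T₁ i) + b * σ (P i))
    (ht₂ : ∃ a b : L, a ≠ 0 ∧ ∀ i, ev C₂' 0 0 i = a * σ (T₂ i) + b * σ (P i))
    (hm₁ : ∀ i j k, mnr (ev C₁ 0 0) (ev C₁' 0 0) (evt C₁ 0 0) i j k = 0)
    (hm₂ : ∀ i j k, mnr (ev C₂ 0 0) (ev C₂' 0 0) (evt C₂ 0 0) i j k = 0) : False := by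
  obtain ⟨l₁, hl₁0, hl₁⟩ := hl₁
  obtain ⟨l₂, hl₂0, hl₂⟩ := hl₂
  obtain ⟨a₁, b₁, ha₁, ht₁⟩ := ht₁
  obtain ⟨a₂, b₂, ha₂, ht₂⟩ := ht₂
  have hev0 : ev C₁ 0 0 ≠ 0 := by
    intro h0
    apply hP0
    funext i
    have h1 := congrFun h0 i
    rw [hl₁ i] at h1
    exact (map_eq_zero σ).1 ((mul_eq_zero.1 h1).resolve_left hl₁0)
  -- the two parametrizations of the orbit
  have hz12 : Cl 0 z₁ z₂ := by
    intro i j
    have e : z₁ i * z₂ j - z₁ j * z₂ i = 0 := by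
      apply Subtype.ext
      push_cast
      rw [hz₁P i, hz₁P j, hz₂P i, hz₂P j]
      ring
    rw [e]
    exact (nm_eq_zero.2 rfl).le
  obtain ⟨a, b, ha, hab⟩ := hPAIR L p hpL ι C₁ C₁' C₂ C₂' hC₁ hC₂ k₁ k₂ hk₁ hk₂ (by
    intro n i j
    obtain ⟨w, hwp, hwi, hRp⟩ := hw₁ (k₂ * n)
    obtain ⟨w', hwp', hwi', hRp'⟩ := hw₂ (k₁ * n)
    have e : k₂ * (k₁ * n) = k₁ * (k₂ * n) := by ring
    rw [e] at hRp'
    have h1 := Rp.contr h le_rfl zero_lt_one hz₁ hz₁p hz₂ hz₂p hz12 hRp hRp' i j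
    have h2 := sub_eq_zero.1 (nm_eq_zero.1 (le_antisymm h1 (nm_nonneg _)))
    have h3 := congrArg (fun x : unitBall L => (x : L)) h2
    push_cast at h3
    rw [← hwi i, ← hwi j, ← hwi' i, ← hwi' j]
    exact h3) (l₂ / l₁) (div_ne_zero hl₂0 hl₁0) (fun i => by
      rw [hl₂ i, hl₁ i]; field_simp) hev0
  -- the velocity is proportional to the point
  have hv : ∀ i j, σ (P i) * evt C₁ 0 0 j = σ (P j) * evt C₁ 0 0 i := by
    by_contra hcon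
    push Not at hcon
    obtain ⟨i, j, k, hijk⟩ := htr
    apply hijk
    apply σ.injective
    have h1 : ∀ i j k, mnr (fun i => σ (P i)) (fun i => σ (T₁ i)) (evt C₁ 0 0) i j k = 0 :=
      fun i j k => mnr_lin (d := 1) (e := 0) (f := 0) hl₁0 ha₁ one_ne_zero hl₁ ht₁
        (fun i => by ring) i j k (hm₁ i j k)
    have h2 : ∀ i j k, mnr (fun i => σ (P i)) (fun i => σ (T₂ i)) (evt C₁ 0 0) i j k = 0 :=
      fun i j k => mnr_lin (d := a) (e := 0) (f := b * l₁) hl₂0 ha₂ ha hl₂ ht₂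
        (fun i => by rw [hab i, hl₁ i]; ring) i j k (hm₂ i j k)
    have h3 := lin hcon h1 h2 i j k
    rw [map_zero, ← h3, mnr_eq, mnr_eq]
    simp only [map_sub, map_add, map_mul]
  have h4 := hVEL L p hpL ι (Fin φ.m) (Fin φ.m) (QS σ S) F G h z₁ hz₁p hz₁ k₁ C₁ C₁' hC₁ hw₁
    (fun i j => by rw [hl₁ i, hl₁ j]; linear_combination l₁ * hv i j) 1
  obtain ⟨w, hwp, hwi, hRp⟩ := hw₁ 1
  obtain ⟨⟨v, hv1⟩, hv2⟩ := link hF h hz₁p hz₁ hwp hRp hPS ⟨c₁, hc₁, hz₁P⟩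
  obtain ⟨c, hc, hvc⟩ := hv2 v hv1
  rw [Nat.mul_one] at hv1
  refine hper k₁ hk₁ v hv1 ?_
  obtain ⟨j, hj⟩ := Function.ne_iff.1 hP0
  have hj' : P j ≠ 0 := hj
  refine ⟨v j / P j, funext fun i => ?_⟩
  have h5 := h4 i j
  rw [← hwi i, ← hwi j, hvc i, hvc j, hl₁ i, hl₁ j] at h5
  have h6 : σ (v i * P j) = σ (v j * P i) := by
    rw [map_mul, map_mul]
    apply mul_left_cancel₀ (mul_ne_zero hc hl₁0)
    linear_combination h5
  have h7 := σ.injective h6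
  rw [Pi.smul_apply, smul_eq_mul, div_mul_eq_mul_div, eq_div_iff hj']
  exact h7

end Pool.Agent.K1H47.RA
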